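import Pool.Agent.Helper80.InvMonMain

set_option autoImplicit false

universe u

open Pool.Agent.Helper80.InvMon in
/-- Every finitely presented `E`-unitary inverse monoid with virtually free maximal group image is
tree-like. -/
theorem Pool.Agent.Results.MP_c7c9a4_al.TreeLikeSchutz.result (M : Type u) [InverseMonoid M]
    (hfp : FinitelyPresented M) (hE : EUnitary M) (hvf : MaxGroupImageVirtuallyFree M) :
    TreeLike M :=
  main hfp hE hvf
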